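import Mathlib

set_option autoImplicit false

/-!
Fractional linkages.
-/

namespace Run7.h534.Link

open Classical in
/-- There are nonnegative weights on the `s i`-`t i` paths (a path is given by its set of vertices),
of total weight one for every `i`, such that for every vertex the total weight of the paths through
it is at most one. -/
def FracLinked {V : Type} [Fintype V] (G : SimpleGraph V) {k : ℕ} (s t : Fin k → V) : Prop :=
  ∃ w : Fin k → Finset V → ℝ,
    (∀ i F, 0 ≤ w i F) ∧
    (∀ i F, w i F ≠ 0 →
      ∃ p : G.Walk (s i) (t i), p.IsPath ∧ ∀ v, v ∈ F ↔ v ∈ p.support) ∧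
    (∀ i, ∑ F, w i F = 1) ∧
    ∀ v, ∑ i, ∑ F ∈ Finset.univ.filter (fun F : Finset V => v ∈ F), w i F ≤ 1

end Run7.h534.Link
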