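import Pool.Agent.Run7.h534.Link.Far
import Pool.Agent.Run7.h534.Link.FDefs

set_option autoImplicit false

namespace Run7.h534.Link

open Finset

theorem not_frac {k c m : ℕ} (q : ℕ) (hk : c * (q + 1) + 3 ≤ k) (hm : m = k * (q + 1) - 1) :
    ¬ FracLinked (GG k c m) (fun i : Fin k => (Sum.inl i : Vt k m))
      (fun i => Sum.inr (Sum.inl i)) := by
  classical
  rintro ⟨w, h0, hp, h1, hv0⟩
  have hv : ∀ v, ∑ i, ∑ F ∈ univ.filter (fun F : Finset (Vt k m) => v ∈ F), w i F ≤ 1 := by
    intro v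
    refine le_of_eq_of_le ?_ (hv0 v)
    apply Finset.sum_congr rfl
    intro i _
    apply Finset.sum_congr _ (fun _ _ => rfl)
    ext F
    simp
  -- sets of positive weight contain both ends
  have hS : ∀ i F, w i F ≠ 0 → (Sum.inl i : Vt k m) ∈ F := by
    intro i F hF
    obtain ⟨p, _, hps⟩ := hp i F hF
    exact (hps _).mpr (by simp)
  have hT : ∀ i F, w i F ≠ 0 → (Sum.inr (Sum.inl i) : Vt k m) ∈ F := by
    intro i F hF
    obtain ⟨p, _, hps⟩ := hp i F hF
    exact (hps _).mpr (by simp)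
  -- a terminal is only used by its own pair
  have hterm : ∀ x : Vt k m, ∀ i : Fin k, (∀ F, w i F ≠ 0 → x ∈ F) → ∀ j, j ≠ i →
      ∀ F, w j F ≠ 0 → x ∉ F := by
    intro x i hx j hj F hF hxF
    have h2 := hv x
    have h3 : ∑ F ∈ univ.filter (fun F : Finset (Vt k m) => x ∈ F), w i F = 1 := by
      rw [← h1 i]
      apply Finset.sum_subset (Finset.filter_subset _ _)
      intro F' _ hF'
      by_contra hne
      exact hF' (by simpa using hx F' hne)
    have h4 : w j F ≤ ∑ F ∈ univ.filter (fun F : Finset (Vt k m) => x ∈ F), w j F :=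
      Finset.single_le_sum (f := w j) (fun F' _ => h0 j F') (by simpa using hxF)
    have h5 : ∑ F ∈ univ.filter (fun F : Finset (Vt k m) => x ∈ F), w i F +
        ∑ F ∈ univ.filter (fun F : Finset (Vt k m) => x ∈ F), w j F ≤
        ∑ a, ∑ F ∈ univ.filter (fun F : Finset (Vt k m) => x ∈ F), w a F := by
      rw [← Finset.sum_pair (f := fun a => ∑ F ∈ univ.filter (fun F : Finset (Vt k m) => x ∈ F),
        w a F) hj.symm]
      apply Finset.sum_le_sum_of_subset_of_nonneg (Finset.subset_univ _)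
      intro a _ _
      exact Finset.sum_nonneg (fun F' _ => h0 a F')
    have h6 := lt_of_le_of_ne (h0 j F) (Ne.symm hF)
    linarith
  -- many inner vertices
  have hmany : ∀ i F, w i F ≠ 0 →
      ((q : ℝ) + 1) ≤ ((univ.filter (fun y : Fin m => (Sum.inr (Sum.inr y) : Vt k m) ∈ F)).card : ℝ) := by
    intro i F hF
    obtain ⟨p, hpp, hps⟩ := hp i F hF
    have h2 := path_long q hk hm i p hpp
      (fun j hj hmem => hterm (Sum.inl j) j (fun F' hF' => hS j F' hF') i hj.symm F hF
        ((hps _).mpr hmem))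
      (fun j hj hmem => hterm (Sum.inr (Sum.inl j)) j (fun F' hF' => hT j F' hF') i hj.symm F hF
        ((hps _).mpr hmem))
    have h3 : (univ.filter (fun y : Fin m => (Sum.inr (Sum.inr y) : Vt k m) ∈ F)) =
        (univ.filter (fun y : Fin m => (Sum.inr (Sum.inr y) : Vt k m) ∈ p.support)) := by
      ext y
      simp [hps]
    rw [h3]
    have h4 : (q + 1) ≤ (univ.filter (fun y : Fin m =>
        (Sum.inr (Sum.inr y) : Vt k m) ∈ p.support)).card := by
      refine h2.trans (le_of_eq ?_)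
      congr
    exact_mod_cast h4
  -- double counting
  have h2 : ∑ y : Fin m, ∑ i, ∑ F ∈ univ.filter
      (fun F : Finset (Vt k m) => (Sum.inr (Sum.inr y) : Vt k m) ∈ F), w i F ≤ m := by
    refine (Finset.sum_le_sum (fun y _ => hv (Sum.inr (Sum.inr y)))).trans ?_
    simp
  have h3 : ∑ y : Fin m, ∑ i, ∑ F ∈ univ.filter
      (fun F : Finset (Vt k m) => (Sum.inr (Sum.inr y) : Vt k m) ∈ F), w i F =
      ∑ i, ∑ F, w i F *
        ((univ.filter (fun y : Fin m => (Sum.inr (Sum.inr y) : Vt k m) ∈ F)).card : ℝ) := by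
    rw [Finset.sum_comm]
    apply Finset.sum_congr rfl
    intro i _
    simp_rw [Finset.sum_filter]
    rw [Finset.sum_comm]
    apply Finset.sum_congr rfl
    intro F _
    rw [← Finset.sum_filter, Finset.sum_const, nsmul_eq_mul, mul_comm]
  have h4 : ∀ i, (q : ℝ) + 1 ≤ ∑ F, w i F *
        ((univ.filter (fun y : Fin m => (Sum.inr (Sum.inr y) : Vt k m) ∈ F)).card : ℝ) := by
    intro i
    have : (q : ℝ) + 1 = ∑ F, w i F * ((q : ℝ) + 1) := by
      rw [← Finset.sum_mul, h1 i, one_mul]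
    rw [this]
    apply Finset.sum_le_sum
    intro F _
    by_cases hF : w i F = 0
    · rw [hF]; simp
    · exact mul_le_mul_of_nonneg_left (hmany i F hF) (h0 i F)
  have h5 : (k : ℝ) * (q + 1) ≤ m := by
    calc (k : ℝ) * (q + 1) = ∑ i : Fin k, ((q : ℝ) + 1) := by
          rw [Finset.sum_const, Finset.card_univ, Fintype.card_fin, nsmul_eq_mul]
      _ ≤ _ := Finset.sum_le_sum (fun i _ => h4 i)
      _ ≤ m := by rw [← h3]; exact h2
  have h6 : k * (q + 1) ≤ m := by exact_mod_cast h5
  have h7 : 0 < k * (q + 1) := Nat.mul_pos (by omega) (by omega)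
  omega

end Run7.h534.Link
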