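import Mathlib

set_option autoImplicit false

/-!
A family of highly connected graphs in which `k` prescribed pairs are far apart.
-/

namespace Run7.h534.Link

open Finset

/-- vertices: `k` sources, `k` targets, and `m` inner vertices -/
abbrev Vt (k m : ℕ) := Fin k ⊕ (Fin k ⊕ Fin m)

/-- the adjacency relation -/
def adj (k c m : ℕ) : Vt k m → Vt k m → Prop
  | Sum.inl i, Sum.inl j => i ≠ j
  | Sum.inl i, Sum.inr (Sum.inl j) => i ≠ j
  | Sum.inr (Sum.inl i), Sum.inl j => i ≠ j
  | Sum.inr (Sum.inl i), Sum.inr (Sum.inl j) => i ≠ j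
  | Sum.inl i, Sum.inr (Sum.inr y) => y.val < max (c + 2) (i.val + 1 + c)
  | Sum.inr (Sum.inr y), Sum.inl i => y.val < max (c + 2) (i.val + 1 + c)
  | Sum.inr (Sum.inl i), Sum.inr (Sum.inr y) => m ≤ y.val + max (c + 2) (k - i.val + c)
  | Sum.inr (Sum.inr y), Sum.inr (Sum.inl i) => m ≤ y.val + max (c + 2) (k - i.val + c)
  | Sum.inr (Sum.inr y), Sum.inr (Sum.inr z) =>
      y.val ≠ z.val ∧ y.val ≤ z.val + (k + c) ∧ z.val ≤ y.val + (k + c)

/-- the graph -/
def GG (k c m : ℕ) : SimpleGraph (Vt k m) where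
  Adj := adj k c m
  symm := by
    refine ⟨?_⟩
    rintro (i | i | y) (j | j | z) h
    all_goals simp only [adj] at h ⊢
    all_goals first | exact h.symm | exact h | exact ⟨h.1.symm, h.2.2, h.2.1⟩
  loopless := by
    refine ⟨?_⟩
    rintro (i | i | y) h
    all_goals simp [adj] at h

end Run7.h534.Link
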