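import Pool.Agent.Run7.h534.Link.Base

set_option autoImplicit false

namespace Run7.h534.Link

open Finset

/-- a criterion for connectedness after deletion of vertices -/
theorem conn_of {V : Type} (G : SimpleGraph V) (Z : Finset V) (hne : ∃ v, v ∉ Z)
    (h : ∀ U W : Set V, (∀ v, v ∈ U ∨ v ∈ W ∨ v ∈ Z) → (∀ v ∈ U, v ∉ Z ∧ v ∉ W) →
      (∀ v ∈ W, v ∉ Z) → U.Nonempty → W.Nonempty →
      (∀ u ∈ U, ∀ w ∈ W, ¬ G.Adj u w) → False) :
    (G.induce ((Z : Set V)ᶜ)).Connected := by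
  classical
  obtain ⟨v0, hv0⟩ := hne
  have : Nonempty ((Z : Set V)ᶜ : Set V) := ⟨⟨v0, by simpa using hv0⟩⟩
  refine ⟨?_⟩
  intro u v
  by_contra hn
  refine h {x | ∃ hx : x ∈ ((Z : Set V)ᶜ : Set V), (G.induce ((Z : Set V)ᶜ)).Reachable u ⟨x, hx⟩}
    {x | x ∉ Z ∧ ¬ ∃ hx : x ∈ ((Z : Set V)ᶜ : Set V),
      (G.induce ((Z : Set V)ᶜ)).Reachable u ⟨x, hx⟩} ?_ ?_ ?_ ?_ ?_ ?_
  · intro x
    by_cases hx : x ∈ Z
    · exact Or.inr (Or.inr hx)
    · by_cases hr : ∃ hx : x ∈ ((Z : Set V)ᶜ : Set V),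
        (G.induce ((Z : Set V)ᶜ)).Reachable u ⟨x, hx⟩
      · exact Or.inl hr
      · exact Or.inr (Or.inl ⟨hx, hr⟩)
  · rintro x ⟨hx, hr⟩
    exact ⟨by simpa using hx, fun hw => hw.2 ⟨hx, hr⟩⟩
  · rintro x ⟨hx, _⟩
    exact hx
  · exact ⟨u.1, u.2, SimpleGraph.Reachable.refl _⟩
  · refine ⟨v.1, fun h => v.2 (by simpa using h), ?_⟩
    rintro ⟨_, hr⟩
    exact hn hr
  · rintro x ⟨hx, hr⟩ w ⟨hw, hwr⟩ ha
    apply hwr
    have hw' : w ∈ ((Z : Set V)ᶜ : Set V) := by simpa using hw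
    refine ⟨hw', hr.trans ?_⟩
    apply SimpleGraph.Adj.reachable
    simpa [SimpleGraph.comap_adj] using ha

/-- the deleted inner vertices -/
def YZ {k m : ℕ} (Z : Finset (Vt k m)) : Finset (Fin m) :=
  univ.filter (fun y => (Sum.inr (Sum.inr y) : Vt k m) ∈ Z)

def SZ {k m : ℕ} (Z : Finset (Vt k m)) : Finset (Fin k) :=
  univ.filter (fun i => (Sum.inl i : Vt k m) ∈ Z)

def TZ {k m : ℕ} (Z : Finset (Vt k m)) : Finset (Fin k) :=
  univ.filter (fun i => (Sum.inr (Sum.inl i) : Vt k m) ∈ Z)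

theorem card_split {k m : ℕ} (Z : Finset (Vt k m)) :
    (SZ Z).card + (TZ Z).card + (YZ Z).card = Z.card := by
  classical
  have h : Z = (SZ Z).disjSum ((TZ Z).disjSum (YZ Z)) := by
    ext v
    rcases v with i | i | y <;> simp [SZ, TZ, YZ]
  conv_rhs => rw [h]
  rw [Finset.card_disjSum, Finset.card_disjSum]
  ring

/-- consecutive survivors on different sides force many deletions -/
theorem gap {m : ℕ} (J : ℕ) (D : Finset (Fin m)) (P : Fin m → Prop)
    (a b : Fin m) (hab : a < b) (ha : a ∉ D) (hb : b ∉ D) (hPa : P a) (hPb : ¬ P b)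
    (h : ∀ y z : Fin m, y < z → y ∉ D → z ∉ D → P y → ¬ P z → y.val + J < z.val) :
    J ≤ D.card := by
  classical
  -- last `P` below `b`
  let A := univ.filter (fun y : Fin m => y < b ∧ y ∉ D ∧ P y)
  have hA : A.Nonempty := ⟨a, by simp [A, hab, ha, hPa]⟩
  have hy := A.max'_mem hA
  set y := A.max' hA with hydef
  have hy' : y < b ∧ y ∉ D ∧ P y := by simpa [A] using hy
  let B := univ.filter (fun z : Fin m => y < z ∧ z ≤ b ∧ z ∉ D)
  have hB : B.Nonempty := ⟨b, by simp [B, hy'.1, hb]⟩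
  have hz := B.min'_mem hB
  set z := B.min' hB with hzdef
  have hz' : y < z ∧ z ≤ b ∧ z ∉ D := by simpa [B] using hz
  have hPz : ¬ P z := by
    intro hPz
    rcases lt_or_eq_of_le hz'.2.1 with hlt | heq
    · have : z ∈ A := by simp [A, hlt, hz'.2.2, hPz]
      have := A.le_max' z this
      exact absurd hz'.1 (not_lt.mpr this)
    · exact hPb (heq ▸ hPz)
  have hgap := h y z hz'.1 hy'.2.1 hz'.2.2 hy'.2.2 hPz
  -- all in between are deleted
  have hsub : (Finset.Ioo y z) ⊆ D := by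
    intro w hw
    rw [Finset.mem_Ioo] at hw
    by_contra hwD
    have : w ∈ B := by
      simp only [B, mem_filter, mem_univ, true_and]
      exact ⟨hw.1, (hw.2.trans_le hz'.2.1).le, hwD⟩
    have := B.min'_le w this
    exact absurd hw.2 (not_lt.mpr this)
  have hc := Finset.card_le_card hsub
  rw [Fin.card_Ioo] at hc
  omega

end Run7.h534.Link
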