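import Pool.Agent.Run7.h534.Link.Conn

set_option autoImplicit false

namespace Run7.h534.Link

open Finset

variable {k c m : ℕ}

theorem two_sides (Z : Finset (Vt k m)) (U W : Set (Vt k m))
    (hall : ∀ v, v ∈ U ∨ v ∈ W ∨ v ∈ Z) (hU : ∀ v ∈ U, v ∉ Z ∧ v ∉ W)
    (hW : ∀ v ∈ W, v ∉ Z)
    (hno : ∀ u ∈ U, ∀ w ∈ W, ¬ (GG k c m).Adj u w)
    (y z : Fin m) (hy : (Sum.inr (Sum.inr y) : Vt k m) ∈ U)
    (hz : (Sum.inr (Sum.inr z) : Vt k m) ∈ W) : k + c ≤ (YZ Z).card := by
  classical
  have hyD : y ∉ YZ Z := by simpa [YZ] using (hU _ hy).1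
  have hzD : z ∉ YZ Z := by simpa [YZ] using hW _ hz
  have hne : y ≠ z := by
    rintro rfl
    exact (hU _ hy).2 hz
  rcases lt_or_gt_of_ne hne with h | h
  · refine gap (k + c) (YZ Z) (fun y => (Sum.inr (Sum.inr y) : Vt k m) ∈ U) y z h hyD hzD hy
      (fun h' => (hU _ h').2 hz) ?_
    intro y' z' hlt hy' hz' hP hQ
    have hz'W : (Sum.inr (Sum.inr z') : Vt k m) ∈ W := by
      rcases hall (Sum.inr (Sum.inr z')) with h1 | h1 | h1
      · exact absurd h1 hQ
      · exact h1
      · exact absurd (by simpa [YZ] using h1) hz'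
    have := hno _ hP _ hz'W
    simp only [GG, adj] at this
    have h2 : y'.val < z'.val := hlt
    by_contra h3
    apply this
    refine ⟨by omega, by omega, by omega⟩
  · refine gap (k + c) (YZ Z) (fun y => (Sum.inr (Sum.inr y) : Vt k m) ∈ W) z y h hzD hyD hz
      (fun h' => (hU _ hy).2 h') ?_
    intro z' y' hlt hz' hy' hP hQ
    have hy'U : (Sum.inr (Sum.inr y') : Vt k m) ∈ U := by
      rcases hall (Sum.inr (Sum.inr y')) with h1 | h1 | h1
      · exact h1
      · exact absurd h1 hQ
      · exact absurd (by simpa [YZ] using h1) hy'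
    have := hno _ hy'U _ hP
    simp only [GG, adj] at this
    have h2 : z'.val < y'.val := hlt
    by_contra h3
    apply this
    refine ⟨by omega, by omega, by omega⟩

theorem core1 (hk : 2 ≤ k) (hm : c + 2 ≤ m) (Z : Finset (Vt k m)) (hZ : Z.card < 2 * k + c)
    (U W : Set (Vt k m))
    (hall : ∀ v, v ∈ U ∨ v ∈ W ∨ v ∈ Z) (hU : ∀ v ∈ U, v ∉ Z ∧ v ∉ W)
    (hW : ∀ v ∈ W, v ∉ Z)
    (hno : ∀ u ∈ U, ∀ w ∈ W, ¬ (GG k c m).Adj u w)
    (i : Fin k) (hS : (Sum.inl i : Vt k m) ∈ U) (hT : (Sum.inr (Sum.inl i) : Vt k m) ∈ W) :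
    False := by
  classical
  have h1 : univ.erase i ⊆ SZ Z := by
    intro j hj
    have hji : j ≠ i := (Finset.mem_erase.mp hj).1
    simp only [SZ, mem_filter, mem_univ, true_and]
    rcases hall (Sum.inl j) with h | h | h
    · exact absurd (by simpa [GG, adj] using hji) (hno _ h _ hT)
    · exact absurd (by simpa [GG, adj] using hji.symm) (hno _ hS _ h)
    · exact h
  have h2 : univ.erase i ⊆ TZ Z := by
    intro j hj
    have hji : j ≠ i := (Finset.mem_erase.mp hj).1
    simp only [TZ, mem_filter, mem_univ, true_and]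
    rcases hall (Sum.inr (Sum.inl j)) with h | h | h
    · exact absurd (by simpa [GG, adj] using hji) (hno _ h _ hT)
    · exact absurd (by simpa [GG, adj] using hji.symm) (hno _ hS _ h)
    · exact h
  have hc1 := Finset.card_le_card h1
  have hc2 := Finset.card_le_card h2
  rw [Finset.card_erase_of_mem (mem_univ i), Finset.card_univ, Fintype.card_fin] at hc1 hc2
  have hsp := card_split Z
  have hD : (YZ Z).card ≤ c + 1 := by omega
  -- a surviving neighbour of `S i`
  have e1 : ∃ y : Fin m, y.val < c + 2 ∧ y ∉ YZ Z := by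
    by_contra hcon
    push Not at hcon
    have : (univ.filter (fun y : Fin m => y.val < c + 2)) ⊆ YZ Z := by
      intro y hy
      exact hcon y (by simpa using hy)
    have hcard := Finset.card_le_card this
    rw [Fin.card_filter_val_lt] at hcard
    omega
  have e2 : ∃ y : Fin m, m ≤ y.val + (c + 2) ∧ y ∉ YZ Z := by
    by_contra hcon
    push Not at hcon
    have : (univ.filter (fun y : Fin m => y.val < m - (c + 2)))ᶜ ⊆ YZ Z := by
      intro y hy
      refine hcon y ?_
      simp only [mem_compl, mem_filter, mem_univ, true_and, not_lt] at hy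
      omega
    have hcard := Finset.card_le_card this
    rw [Finset.card_compl, Fin.card_filter_val_lt, Fintype.card_fin] at hcard
    omega
  obtain ⟨y, hy, hyD⟩ := e1
  obtain ⟨z, hz, hzD⟩ := e2
  have hyU : (Sum.inr (Sum.inr y) : Vt k m) ∈ U := by
    rcases hall (Sum.inr (Sum.inr y)) with h | h | h
    · exact h
    · refine absurd ?_ (hno _ hS _ h)
      simp only [GG, adj]
      exact lt_of_lt_of_le hy (le_max_left _ _)
    · exact absurd (by simpa [YZ] using h) hyD
  have hzW : (Sum.inr (Sum.inr z) : Vt k m) ∈ W := by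
    rcases hall (Sum.inr (Sum.inr z)) with h | h | h
    · refine absurd ?_ (hno _ h _ hT)
      simp only [GG, adj]
      exact le_trans hz (Nat.add_le_add_left (le_max_left _ _) _)
    · exact h
    · exact absurd (by simpa [YZ] using h) hzD
  have := two_sides Z U W hall hU hW hno y z hyU hzW
  omega

theorem core2 (hk : 2 ≤ k) (Z : Finset (Vt k m)) (hZ : Z.card < 2 * k + c)
    (U W : Set (Vt k m))
    (hall : ∀ v, v ∈ U ∨ v ∈ W ∨ v ∈ Z) (hU : ∀ v ∈ U, v ∉ Z ∧ v ∉ W)
    (hW : ∀ v ∈ W, v ∉ Z) (hUne : U.Nonempty) (hWne : W.Nonempty)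
    (hno : ∀ u ∈ U, ∀ w ∈ W, ¬ (GG k c m).Adj u w)
    (hS : ∀ i : Fin k, (Sum.inl i : Vt k m) ∉ W)
    (hT : ∀ i : Fin k, (Sum.inr (Sum.inl i) : Vt k m) ∉ W) :
    False := by
  classical
  have hsp := card_split Z
  have hSc : (SZ Z).card ≤ k := (Finset.card_le_univ _).trans (by simp)
  have hTc : (TZ Z).card ≤ k := (Finset.card_le_univ _).trans (by simp)
  let A := univ.filter (fun y : Fin m => (Sum.inr (Sum.inr y) : Vt k m) ∈ W)
  have hA : A.Nonempty := by
    obtain ⟨w, hw⟩ := hWne
    rcases w with i | i | y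
    · exact absurd hw (hS i)
    · exact absurd hw (hT i)
    · exact ⟨y, by simpa [A] using hw⟩
  set a := A.min' hA with hadef
  set b := A.max' hA with hbdef
  have haW : (Sum.inr (Sum.inr a) : Vt k m) ∈ W := by
    have := A.min'_mem hA
    simpa [A] using this
  have hbW : (Sum.inr (Sum.inr b) : Vt k m) ∈ W := by
    have := A.max'_mem hA
    simpa [A] using this
  have hab : a ≤ b := A.min'_le _ (A.max'_mem hA)
  have hab' : a.val ≤ b.val := hab
  have ham := a.isLt
  have hbm := b.isLt
  -- left block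
  let L : Finset (Fin m) := Finset.Ico ⟨a.val - (k + c), by omega⟩ a
  let R : Finset (Fin m) := Finset.Ioc b ⟨min (b.val + (k + c)) (m - 1), by omega⟩
  have hL : L ⊆ YZ Z := by
    intro z hz
    have hz1 : a.val - (k + c) ≤ z.val ∧ z.val < a.val := by
      have := Finset.mem_Ico.mp hz
      exact ⟨this.1, this.2⟩
    simp only [YZ, mem_filter, mem_univ, true_and]
    rcases hall (Sum.inr (Sum.inr z)) with h | h | h
    · refine absurd ?_ (hno _ h _ haW)
      simp only [GG, adj]
      refine ⟨by omega, by omega, by omega⟩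
    · have : z ∈ A := by simpa [A] using h
      have h3 : a ≤ z := A.min'_le z this
      have h4 : a.val ≤ z.val := h3
      omega
    · exact h
  have hR : R ⊆ YZ Z := by
    intro z hz
    have hz1 : b.val < z.val ∧ z.val ≤ min (b.val + (k + c)) (m - 1) := by
      have := Finset.mem_Ioc.mp hz
      exact ⟨this.1, this.2⟩
    simp only [YZ, mem_filter, mem_univ, true_and]
    rcases hall (Sum.inr (Sum.inr z)) with h | h | h
    · refine absurd ?_ (hno _ h _ hbW)
      simp only [GG, adj]
      refine ⟨by omega, by omega, by omega⟩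
    · have : z ∈ A := by simpa [A] using h
      have h3 : z ≤ b := A.le_max' z this
      have h4 : z.val ≤ b.val := h3
      omega
    · exact h
  have hdisj : Disjoint L R := by
    rw [Finset.disjoint_left]
    intro z hz hz'
    have h1 := (Finset.mem_Ico.mp hz).2
    have h2 := (Finset.mem_Ioc.mp hz').1
    exact absurd (lt_of_lt_of_le h1 (hab.trans h2.le)) (lt_irrefl _)
  have hLc : L.card = a.val - (a.val - (k + c)) := by simp [L, Fin.card_Ico]
  have hRc : R.card = min (b.val + (k + c)) (m - 1) - b.val := by simp [R, Fin.card_Ioc]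
  have hLR : L.card + R.card ≤ (YZ Z).card := by
    rw [← Finset.card_union_of_disjoint hdisj]
    exact Finset.card_le_card (Finset.union_subset hL hR)
  -- bounds from the sources
  have hSS : SZ Z = univ ∨ k + c ≤ L.card + (SZ Z).card := by
    by_cases hne : ((SZ Z)ᶜ).Nonempty
    · right
      set i := ((SZ Z)ᶜ).max' hne with hi
      have him := ((SZ Z)ᶜ).max'_mem hne
      rw [← hi] at him
      have hsub : Finset.Ioi i ⊆ SZ Z := by
        intro j hj
        by_contra hjn
        have : j ≤ i := ((SZ Z)ᶜ).le_max' j (by simpa using hjn)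
        exact absurd (Finset.mem_Ioi.mp hj) (not_lt.mpr this)
      have hcc := Finset.card_le_card hsub
      rw [Fin.card_Ioi] at hcc
      have hiU : (Sum.inl i : Vt k m) ∈ U := by
        rcases hall (Sum.inl i) with h | h | h
        · exact h
        · exact absurd h (hS i)
        · exact absurd h (by simpa [SZ] using him)
      have hna := hno _ hiU _ haW
      simp only [GG, adj] at hna
      have := i.isLt
      have hmx := le_max_right (c + 2) (i.val + 1 + c)
      omega
    · left
      rw [Finset.not_nonempty_iff_eq_empty, Finset.compl_eq_empty_iff] at hne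
      exact hne
  have hTT : TZ Z = univ ∨ k + c ≤ R.card + (TZ Z).card := by
    by_cases hne : ((TZ Z)ᶜ).Nonempty
    · right
      set i := ((TZ Z)ᶜ).min' hne with hi
      have him := ((TZ Z)ᶜ).min'_mem hne
      rw [← hi] at him
      have hsub : Finset.Iio i ⊆ TZ Z := by
        intro j hj
        by_contra hjn
        have : i ≤ j := ((TZ Z)ᶜ).min'_le j (by simpa using hjn)
        exact absurd (Finset.mem_Iio.mp hj) (not_lt.mpr this)
      have hcc := Finset.card_le_card hsub
      rw [Fin.card_Iio] at hcc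
      have hiU : (Sum.inr (Sum.inl i) : Vt k m) ∈ U := by
        rcases hall (Sum.inr (Sum.inl i)) with h | h | h
        · exact h
        · exact absurd h (hT i)
        · exact absurd h (by simpa [TZ] using him)
      have hna := hno _ hiU _ hbW
      simp only [GG, adj] at hna
      have := i.isLt
      have hmx := le_max_right (c + 2) (k - i.val + c)
      omega
    · left
      rw [Finset.not_nonempty_iff_eq_empty, Finset.compl_eq_empty_iff] at hne
      exact hne
  rcases hSS with hs | hs
  · have hs' : (SZ Z).card = k := by rw [hs]; simp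
    rcases hTT with ht | ht
    · have ht' : (TZ Z).card = k := by rw [ht]; simp
      -- all terminals deleted
      obtain ⟨u, hu⟩ := hUne
      rcases u with i | i | y
      · have : i ∈ SZ Z := by rw [hs]; simp
        exact (hU _ hu).1 (by simpa [SZ] using this)
      · have : i ∈ TZ Z := by rw [ht]; simp
        exact (hU _ hu).1 (by simpa [TZ] using this)
      · have := two_sides Z U W hall hU hW hno y a hu haW
        omega
    · omega
  · rcases hTT with ht | ht
    · have ht' : (TZ Z).card = k := by rw [ht]; simp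
      omega
    · omega

theorem conn (hk : 2 ≤ k) (hm : c + 2 ≤ m) (Z : Finset (Vt k m)) (hZ : Z.card < 2 * k + c) :
    ((GG k c m).induce ((Z : Set (Vt k m))ᶜ)).Connected := by
  classical
  apply conn_of
  · by_contra hcon
    push Not at hcon
    have : (univ : Finset (Vt k m)) ⊆ Z := fun v _ => hcon v
    have hc := Finset.card_le_card this
    simp only [Finset.card_univ, Fintype.card_sum, Fintype.card_fin] at hc
    omega
  · intro U W hall hU hW hUne hWne hno
    have hall' : ∀ v, v ∈ W ∨ v ∈ U ∨ v ∈ Z := by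
      intro v
      rcases hall v with h | h | h
      · exact Or.inr (Or.inl h)
      · exact Or.inl h
      · exact Or.inr (Or.inr h)
    have hW' : ∀ v ∈ W, v ∉ Z ∧ v ∉ U := fun v hv => ⟨hW v hv, fun hu => (hU v hu).2 hv⟩
    have hU' : ∀ v ∈ U, v ∉ Z := fun v hv => (hU v hv).1
    have hno' : ∀ u ∈ W, ∀ w ∈ U, ¬ (GG k c m).Adj u w :=
      fun u hu w hw ha => hno w hw u hu ha.symm
    by_cases h1 : (∀ i : Fin k, (Sum.inl i : Vt k m) ∉ W) ∧
        (∀ i : Fin k, (Sum.inr (Sum.inl i) : Vt k m) ∉ W)
    · exact core2 hk Z hZ U W hall hU hW hUne hWne hno h1.1 h1.2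
    by_cases h2 : (∀ i : Fin k, (Sum.inl i : Vt k m) ∉ U) ∧
        (∀ i : Fin k, (Sum.inr (Sum.inl i) : Vt k m) ∉ U)
    · exact core2 hk Z hZ W U hall' hW' hU' hWne hUne hno' h2.1 h2.2
    -- both sides contain terminals
    have hx : (∃ i : Fin k, (Sum.inl i : Vt k m) ∈ W) ∨
        (∃ i : Fin k, (Sum.inr (Sum.inl i) : Vt k m) ∈ W) := by
      by_contra hcon
      push Not at hcon
      exact h1 hcon
    have hx' : (∃ i : Fin k, (Sum.inl i : Vt k m) ∈ U) ∨
        (∃ i : Fin k, (Sum.inr (Sum.inl i) : Vt k m) ∈ U) := by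
      by_contra hcon
      push Not at hcon
      exact h2 hcon
    rcases hx with ⟨i, hi⟩ | ⟨i, hi⟩ <;> rcases hx' with ⟨j, hj⟩ | ⟨j, hj⟩
    · have hna := hno _ hj _ hi
      simp only [GG, adj, not_not] at hna
      subst hna
      exact (hU _ hj).2 hi
    · have hna := hno _ hj _ hi
      simp only [GG, adj, not_not] at hna
      subst hna
      exact core1 hk hm Z hZ W U hall' hW' hU' hno' j hi hj
    · have hna := hno _ hj _ hi
      simp only [GG, adj, not_not] at hna
      subst hna
      exact core1 hk hm Z hZ U W hall hU hW hno j hj hi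
    · have hna := hno _ hj _ hi
      simp only [GG, adj, not_not] at hna
      subst hna
      exact (hU _ hj).2 hi

end Run7.h534.Link
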