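import Pool.Agent.Run7.h534.Link.Metric

set_option autoImplicit false

/-!
The distance lemma, second part.
-/

namespace Run7.h534.Link

open Finset

/-- `v` can be reached from `u` inside `F` -/
def Con {V : Type} (G : SimpleGraph V) (F : Finset V) (u v : V) : Prop :=
  ∃ w : G.Walk u v, ∀ x ∈ w.support, x ∈ F

theorem walk_of_reach {V : Type} (G : SimpleGraph V) (S : Set V) (a b : S)
    (h : (G.induce S).Reachable a b) : ∃ w : G.Walk a.1 b.1, ∀ x ∈ w.support, x ∈ S := by
  obtain ⟨w⟩ := h
  induction w with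
  | nil => exact ⟨SimpleGraph.Walk.nil, by simp⟩
  | @cons u v w h p ih =>
    obtain ⟨w', hw'⟩ := ih
    have h' : G.Adj u.1 v.1 := by simpa [SimpleGraph.comap_adj] using h
    refine ⟨SimpleGraph.Walk.cons h' w', ?_⟩
    intro x hx
    rw [SimpleGraph.Walk.support_cons, List.mem_cons] at hx
    rcases hx with rfl | hx
    · exact u.2
    · exact hw' x hx

theorem walk_invariant {V : Type} (G : SimpleGraph V) (P : V → Prop) (Q : V → Prop)
    (hPQ : ∀ a b, G.Adj a b → P a → Q b → P b) {a b : V} (w : G.Walk a b)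
    (hw : ∀ x ∈ w.support, Q x) (ha : P a) : P b := by
  induction w with
  | nil => exact ha
  | @cons u v w h p ih =>
    apply ih
    · intro x hx
      exact hw x (by simp [hx])
    · exact hPQ u v h ha (hw v (by simp))

theorem metric {V : Type} [Fintype V] [DecidableEq V] (G : SimpleGraph V) (X : Finset V) (M : ℕ)
    (hXM : X.card < M) (hXne : X.Nonempty)
    (hconn : ∀ S : Finset V, S.card < M → (G.induce ((S : Set V)ᶜ)).Connected)
    (l : V → ℝ) (hl : ∀ v, 0 ≤ l v) (u : V) (hu : u ∉ X) :
    ∃ (D : V → ℝ) (F : V → Finset V) (r : ℝ),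
      (∀ x ∈ X, Con G (F x) u x ∧ (∀ y ∈ F x, y ∈ X → y = x) ∧ ∑ y ∈ F x \ X, l y = D x ∧
        u ∈ F x) ∧ (∀ x ∈ X, l u ≤ D x ∧ D x ≤ r) ∧
      (M : ℝ) * (r - l u) + l u ≤ (∑ v ∈ univ \ X, l v) + ∑ x ∈ X, (r - D x) := by
  classical
  -- admissible sets
  let Adm : V → Finset V → Prop := fun v F => Con G F u v ∧ ∀ y ∈ F, y ∈ X → y = v
  have hAdm : ∀ v, ∃ F, Adm v F := by
    intro v
    have hc : (X.erase v).card < M := lt_of_le_of_lt (Finset.card_erase_le) hXM
    have hconn' := hconn _ hc
    have hu' : u ∈ (((X.erase v : Finset V) : Set V)ᶜ : Set V) := by simp [hu]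
    have hv' : v ∈ (((X.erase v : Finset V) : Set V)ᶜ : Set V) := by simp
    obtain ⟨w, hw⟩ := walk_of_reach G _ ⟨u, hu'⟩ ⟨v, hv'⟩ (hconn'.preconnected _ _)
    refine ⟨(X.erase v)ᶜ, ⟨w, ?_⟩, ?_⟩
    · intro x hx
      have := hw x hx
      rw [Finset.mem_compl]
      exact fun h => this (by exact_mod_cast h)
    · intro y hy hyX
      rw [Finset.mem_compl, Finset.mem_erase] at hy
      by_contra hne
      exact hy ⟨hne, hyX⟩
  have hmin : ∀ v, ∃ F, Adm v F ∧ ∀ F', Adm v F' → ∑ y ∈ F \ X, l y ≤ ∑ y ∈ F' \ X, l y := by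
    intro v
    obtain ⟨F0, hF0⟩ := hAdm v
    obtain ⟨F, hF, hF'⟩ := Finset.exists_min_image (univ.filter (fun F => Adm v F))
      (fun F => ∑ y ∈ F \ X, l y) ⟨F0, by simp [hF0]⟩
    exact ⟨F, by simpa using hF, fun F' h => hF' F' (by simpa using h)⟩
  choose F hF hFmin using hmin
  let D : V → ℝ := fun v => ∑ y ∈ F v \ X, l y
  have huF : ∀ v, u ∈ F v := by
    intro v
    obtain ⟨w, hw⟩ := (hF v).1
    exact hw u (by simp)
  have hDl : ∀ v, l u ≤ D v := by
    intro v
    apply Finset.single_le_sum (f := l) (fun i _ => hl i)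
    rw [Finset.mem_sdiff]
    exact ⟨huF v, hu⟩
  have hDu : D u ≤ l u := by
    have h1 : Adm u {u} := by
      refine ⟨⟨SimpleGraph.Walk.nil, by simp⟩, ?_⟩
      intro y hy hyX
      exact Finset.mem_singleton.mp hy
    have := hFmin u {u} h1
    refine this.trans ?_
    have h2 : ({u} : Finset V) \ X = {u} := by
      ext y
      simp only [mem_sdiff, mem_singleton]
      constructor
      · exact fun h => h.1
      · rintro rfl
        exact ⟨rfl, hu⟩
    rw [h2, Finset.sum_singleton]
  have hstep : ∀ a b, G.Adj a b → a ∉ X → D b ≤ D a + (if b ∈ X then 0 else l b) := by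
    intro a b hab haX
    have h1 : Adm b (insert b (F a)) := by
      obtain ⟨w, hw⟩ := (hF a).1
      refine ⟨⟨w.concat hab, ?_⟩, ?_⟩
      · intro x hx
        rw [SimpleGraph.Walk.support_concat, List.mem_append,
          List.mem_singleton] at hx
        rcases hx with hx | hx
        · exact Finset.mem_insert_of_mem (hw x hx)
        · rw [hx]
          exact Finset.mem_insert_self _ _
      · intro y hy hyX
        rcases Finset.mem_insert.mp hy with h | h
        · exact h
        · have := (hF a).2 y h hyX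
          rw [this] at hyX
          exact absurd hyX haX
    refine (hFmin b _ h1).trans ?_
    by_cases hbX : b ∈ X
    · rw [if_pos hbX, add_zero, Finset.insert_sdiff_of_mem _ hbX]
    · rw [if_neg hbX, Finset.insert_sdiff_of_notMem _ hbX]
      by_cases hbF : b ∈ F a \ X
      · rw [Finset.insert_eq_of_mem hbF]
        linarith [hl b]
      · rw [Finset.sum_insert hbF]
        linarith
  -- the radius
  obtain ⟨x0, hx0, hx0max⟩ := Finset.exists_max_image X D hXne
  refine ⟨D, F, D x0, ?_, ?_, ?_⟩
  · intro x hx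
    exact ⟨(hF x).1, (hF x).2, rfl, huF x⟩
  · intro x hx
    exact ⟨hDl x, hx0max x hx⟩
  · have key := coarea ((univ \ X).erase u) X (fun v => D v - l v) D D (l u) (D x0) (M : ℝ)
      (hDl x0) (fun i _ => by linarith [hl i]) (fun j hj => ⟨hDl j, hx0max j hj⟩) ?_
    · have h1 : ∑ i ∈ (univ \ X).erase u, (D i - (D i - l i)) =
          (∑ v ∈ univ \ X, l v) - l u := by
        rw [← Finset.sum_erase_add (univ \ X) l (a := u) (by simp [hu])]
        simp
      rw [h1] at key
      linarith
    · intro x hx1 hx2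
      by_contra hcon
      push Not at hcon
      let Z1 := ((univ \ X).erase u).filter (fun v => D v - l v < x ∧ x ≤ D v)
      let Z2 := X.filter (fun v => D v < x)
      have e1 : (∑ i ∈ (univ \ X).erase u,
          (Set.Ioc (D i - l i) (D i)).indicator (fun _ => (1 : ℝ)) x) = (Z1.card : ℝ) := by
        rw [Finset.card_filter, Nat.cast_sum]
        apply Finset.sum_congr rfl
        intro i _
        simp only [Set.indicator_apply, Set.mem_Ioc]
        split_ifs <;> simp
      have e2 : (∑ j ∈ X, (Set.Ioi (D j)).indicator (fun _ => (1 : ℝ)) x) = (Z2.card : ℝ) := by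
        rw [Finset.card_filter, Nat.cast_sum]
        apply Finset.sum_congr rfl
        intro i _
        simp only [Set.indicator_apply, Set.mem_Ioi]
        split_ifs <;> simp
      rw [e1, e2] at hcon
      have hlt : (Z1 ∪ Z2).card < M := by
        have h1 : (Z1 ∪ Z2).card ≤ Z1.card + Z2.card := Finset.card_union_le _ _
        have h2 : Z1.card + Z2.card < M := by exact_mod_cast hcon
        omega
      have hc := hconn _ hlt
      have hu' : u ∈ (((Z1 ∪ Z2 : Finset V) : Set V)ᶜ : Set V) := by
        simp [Z1, Z2, hu]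
      have hx0' : x0 ∈ (((Z1 ∪ Z2 : Finset V) : Set V)ᶜ : Set V) := by
        simp only [Z1, Z2, Set.mem_compl_iff, Finset.mem_coe, Finset.mem_union, Finset.mem_filter,
          Finset.mem_erase, Finset.mem_sdiff, Finset.mem_univ, true_and, not_or, not_and, not_lt]
        refine ⟨fun _ h => absurd hx0 (by tauto), fun _ => hx2⟩
      obtain ⟨w, hw⟩ := walk_of_reach G _ ⟨u, hu'⟩ ⟨x0, hx0'⟩ (hc.preconnected _ _)
      have hinv := walk_invariant G (fun v => v ∉ X ∧ D v < x) (fun v => v ∉ Z1 ∪ Z2) ?_ w
        (fun y hy => by simpa using hw y hy) ⟨hu, lt_of_le_of_lt hDu hx1⟩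
      · exact hinv.1 hx0
      · rintro a b hab ⟨haX, haD⟩ hb
        have hs := hstep a b hab haX
        by_cases hbX : b ∈ X
        · exfalso
          rw [if_pos hbX, add_zero] at hs
          apply hb
          rw [Finset.mem_union]
          right
          simp only [Z2, Finset.mem_filter]
          exact ⟨hbX, lt_of_le_of_lt hs haD⟩
        · refine ⟨hbX, ?_⟩
          rw [if_neg hbX] at hs
          by_contra hge
          push Not at hge
          by_cases hbu : b = u
          · rw [hbu] at hge
            linarith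
          · apply hb
            rw [Finset.mem_union]
            left
            simp only [Z1, Finset.mem_filter, Finset.mem_erase, Finset.mem_sdiff, Finset.mem_univ,
              true_and]
            exact ⟨⟨hbu, hbX⟩, by linarith, hge⟩

end Run7.h534.Link
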