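import Pool.Agent.Run7.h534.Link.Conn2

set_option autoImplicit false

namespace Run7.h534.Link

open Finset

variable {k c m : ℕ}

/-- a walk through inner vertices to the `i`-th target is long -/
theorem walk_long (i : Fin k) {v t : Vt k m} (w : (GG k c m).Walk v t)
    (ht : t = Sum.inr (Sum.inl i)) (y : Fin m) (hv : v = Sum.inr (Sum.inr y))
    (hw : ∀ x ∈ w.support, x = Sum.inr (Sum.inl i) ∨ ∃ z : Fin m, x = Sum.inr (Sum.inr z)) :
    1 ≤ w.length ∧ m ≤ y.val + max (c + 2) (k - i.val + c) + (w.length - 1) * (k + c) := by
  induction w generalizing y with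
  | nil => exact absurd (hv.symm.trans ht) (by simp)
  | @cons u v' t h w' ih =>
    subst hv
    refine ⟨by simp, ?_⟩
    have hv' : v' = Sum.inr (Sum.inl i) ∨ ∃ z : Fin m, v' = Sum.inr (Sum.inr z) :=
      hw v' (by simp)
    rcases hv' with hv' | ⟨z, hz⟩
    · subst hv'
      simp only [GG, adj] at h
      exact le_trans h (Nat.le_add_right _ _)
    · have h2 := ih ht z hz (fun x hx => hw x (by simp [hx]))
      subst hz
      simp only [GG, adj] at h
      obtain ⟨h3, h4⟩ := h2
      rw [SimpleGraph.Walk.length_cons]
      have h5 : (w'.length + 1 - 1) * (k + c) = (w'.length - 1) * (k + c) + (k + c) := by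
        obtain ⟨n, hn⟩ : ∃ n, w'.length = n + 1 := ⟨w'.length - 1, by omega⟩
        rw [hn]
        simp only [Nat.add_sub_cancel]
        ring
      rw [h5]
      omega

open Classical in
/-- every path from `s i` to `t i` avoiding the other terminals has many inner vertices -/
theorem path_long (q : ℕ) (hk : c * (q + 1) + 3 ≤ k) (hm : m = k * (q + 1) - 1) (i : Fin k)
    (p : (GG k c m).Walk (Sum.inl i) (Sum.inr (Sum.inl i))) (hp : p.IsPath)
    (hS : ∀ j, j ≠ i → (Sum.inl j : Vt k m) ∉ p.support)
    (hT : ∀ j, j ≠ i → (Sum.inr (Sum.inl j) : Vt k m) ∉ p.support) :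
    q + 1 ≤ (univ.filter (fun y : Fin m => (Sum.inr (Sum.inr y) : Vt k m) ∈ p.support)).card := by
  cases p with
  | @cons _ v _ h w =>
    rw [SimpleGraph.Walk.cons_isPath_iff] at hp
    -- every vertex of `w` is inner or the target
    have hw : ∀ x ∈ w.support, x = Sum.inr (Sum.inl i) ∨
        ∃ z : Fin m, x = Sum.inr (Sum.inr z) := by
      intro x hx
      rcases x with j | j | z
      · exfalso
        by_cases hj : j = i
        · subst hj
          exact hp.2 hx
        · exact hS j hj (by simp [hx])
      · left
        by_cases hj : j = i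
        · rw [hj]
        · exact absurd (by simp [hx]) (hT j hj)
      · exact Or.inr ⟨z, rfl⟩
    rcases hw v (by simp) with hv | ⟨y, hy⟩
    · subst hv
      exact absurd h (by simp [GG, adj])
    · subst hy
      obtain ⟨h1, h2⟩ := walk_long i w rfl y rfl hw
      have hadj := h
      simp only [GG, adj] at h
      -- the length
      have hi := i.isLt
      have hab : max (c + 2) (i.val + 1 + c) + max (c + 2) (k - i.val + c) ≤ k + 2 * c + 2 := by
        rcases max_cases (c + 2) (i.val + 1 + c) with ⟨e1, _⟩ | ⟨e1, _⟩ <;>
        rcases max_cases (c + 2) (k - i.val + c) with ⟨e2, _⟩ | ⟨e2, _⟩ <;>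
        rw [e1, e2] <;> omega
      have hlen : q + 1 ≤ w.length := by
        by_contra hcon
        push Not at hcon
        have h3 : w.length - 1 ≤ q - 1 := by omega
        have h4 : (w.length - 1) * (k + c) ≤ (q - 1) * (k + c) := Nat.mul_le_mul_right _ h3
        obtain ⟨q', rfl⟩ : ∃ q', q = q' + 1 := ⟨q - 1, by omega⟩
        simp only [Nat.add_sub_cancel] at h4
        have h5 : k * (q' + 1 + 1) = q' * (k + c) + 2 * k - c * q' := by
          have : q' * (k + c) + 2 * k = k * (q' + 1 + 1) + c * q' := by ring
          omega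
        have h6 : c * (q' + 1 + 1) = c * q' + 2 * c := by ring
        have h7 : q' * (k + c) = k * q' + c * q' := by ring
        have h8 : k * (q' + 1 + 1) = k * q' + 2 * k := by ring
        omega
      -- counting
      have hcard : (w.support.toFinset.erase (Sum.inr (Sum.inl i))).card = w.length := by
        rw [Finset.card_erase_of_mem (by simp), List.toFinset_card_of_nodup hp.1.support_nodup,
          SimpleGraph.Walk.length_support]
        rfl
      have hsub : (w.support.toFinset.erase (Sum.inr (Sum.inl i))) ⊆
          (univ.filter (fun y : Fin m => (Sum.inr (Sum.inr y) : Vt k m) ∈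
            (SimpleGraph.Walk.cons hadj w).support)).image
            (fun y => (Sum.inr (Sum.inr y) : Vt k m)) := by
        intro x hx
        rw [Finset.mem_erase, List.mem_toFinset] at hx
        rcases hw x hx.2 with h3 | ⟨z, hz⟩
        · exact absurd h3 hx.1
        · rw [Finset.mem_image]
          refine ⟨z, ?_, hz.symm⟩
          simp only [mem_filter, mem_univ, true_and]
          rw [← hz]
          simp [hx.2]
      have h3 := Finset.card_le_card hsub
      have h4 := Finset.card_image_le (s := (univ.filter (fun y : Fin m =>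
        (Sum.inr (Sum.inr y) : Vt k m) ∈ (SimpleGraph.Walk.cons hadj w).support)))
        (f := fun y => (Sum.inr (Sum.inr y) : Vt k m))
      omega

/-- the graph is not linked -/
theorem not_linked (q : ℕ) (hk : c * (q + 1) + 3 ≤ k) (hm : m = k * (q + 1) - 1) :
    ¬ ∃ p : ∀ i : Fin k, (GG k c m).Walk (Sum.inl i) (Sum.inr (Sum.inl i)),
      (∀ i, (p i).IsPath) ∧
      ∀ i j, i ≠ j → ∀ v, v ∈ (p i).support → v ∉ (p j).support := by
  classical
  rintro ⟨p, hp, hd⟩
  have h1 : ∀ i, q + 1 ≤ (univ.filter (fun y : Fin m =>
      (Sum.inr (Sum.inr y) : Vt k m) ∈ (p i).support)).card := by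
    intro i
    apply path_long q hk hm i (p i) (hp i)
    · intro j hj hmem
      exact hd i j hj.symm _ hmem (by simp)
    · intro j hj hmem
      exact hd i j hj.symm _ hmem (by simp)
  have h2 : (univ.biUnion (fun i : Fin k => univ.filter (fun y : Fin m =>
      (Sum.inr (Sum.inr y) : Vt k m) ∈ (p i).support))).card =
      ∑ i : Fin k, (univ.filter (fun y : Fin m =>
      (Sum.inr (Sum.inr y) : Vt k m) ∈ (p i).support)).card := by
    apply Finset.card_biUnion
    intro i _ j _ hij
    refine Finset.disjoint_left.mpr ?_
    intro y hy hy'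
    simp only [mem_filter, mem_univ, true_and] at hy hy'
    exact hd i j hij _ hy hy'
  have h3 : (univ.biUnion (fun i : Fin k => univ.filter (fun y : Fin m =>
      (Sum.inr (Sum.inr y) : Vt k m) ∈ (p i).support))).card ≤ m :=
    (Finset.card_le_univ _).trans (by simp)
  have h4 : k * (q + 1) ≤ ∑ i : Fin k, (univ.filter (fun y : Fin m =>
      (Sum.inr (Sum.inr y) : Vt k m) ∈ (p i).support)).card := by
    have := Finset.sum_le_sum (s := (univ : Finset (Fin k))) (fun i _ => h1 i)
    simpa using this
  have h5 : 0 < k * (q + 1) := Nat.mul_pos (by omega) (by omega)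
  omega

end Run7.h534.Link
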