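import Pool.Agent.Run7.h534.Link.HB

set_option autoImplicit false

/-!
Fractional linkages in large highly connected graphs.
-/

namespace Run7.h534.Link

open Finset

theorem frac {V : Type} [Fintype V] (G : SimpleGraph V) (k c : ℕ) (hc : 1 ≤ c)
    (hcard : 2 * k + c < Fintype.card V)
    (hconn : ∀ S : Finset V, S.card < 2 * k + c → (G.induce ((S : Set V)ᶜ)).Connected)
    (hn : k * (2 * k + c) + 2 * k * c ≤ c * Fintype.card V + 2 * k)
    (s t : Fin k → V) (hinj : Function.Injective (Sum.elim s t)) : FracLinked G s t := by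
  classical
  rcases Nat.eq_zero_or_pos k with hk0 | hk
  · subst hk0
    exact ⟨fun i => i.elim0, fun i => i.elim0, fun i => i.elim0, fun i => i.elim0, by simp⟩
  refine frac_of_metric G s t hinj (univ.image (Sum.elim s t)) (by congr) ?_
  intro l hl δ hδ
  by_contra hcon
  push Not at hcon
  have hcon' : ∀ F : Fin k → Finset V,
      (∀ i, PS G s t (univ.image (Sum.elim s t)) i (F i)) →
      ∑ v ∈ univ \ univ.image (Sum.elim s t), l v + δ ≤
        ∑ i, ∑ v ∈ F i \ univ.image (Sum.elim s t), l v := by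
    intro F hF
    have := hcon F hF
    simpa using this
  generalize hXdef : univ.image (Sum.elim s t) = X at hcon'
  have hXcard : X.card = 2 * k := by
    rw [← hXdef, Finset.card_image_of_injective _ hinj]
    simp only [Finset.card_univ, Fintype.card_sum, Fintype.card_fin]
    ring
  have hXne : X.Nonempty := by
    rw [← Finset.card_pos]
    omega
  have hYcard : (univ \ X).card = Fintype.card V - 2 * k := by
    rw [Finset.card_sdiff_of_subset (Finset.subset_univ X), hXcard, Finset.card_univ]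
  have hYne : (univ \ X).Nonempty := by
    rw [← Finset.card_pos]
    omega
  obtain ⟨u, hu, humin⟩ := Finset.exists_min_image (univ \ X) l hYne
  have huX : u ∉ X := (Finset.mem_sdiff.mp hu).2
  obtain ⟨D, F, r, hF, hD, hmet⟩ := metric G X (2 * k + c) (by omega) hXne hconn l hl u huX
  have hsX : ∀ i, s i ∈ X := by
    intro i
    rw [← hXdef]
    exact Finset.mem_image.mpr ⟨Sum.inl i, mem_univ _, rfl⟩
  have htX : ∀ i, t i ∈ X := by
    intro i
    rw [← hXdef]
    exact Finset.mem_image.mpr ⟨Sum.inr i, mem_univ _, rfl⟩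
  -- the paths through `u`
  have hpath : ∀ i, ∃ F' : Finset V, PS G s t X i F' ∧ F' ⊆ F (s i) ∪ F (t i) := by
    intro i
    obtain ⟨⟨w1, hw1⟩, hx1, _, _⟩ := hF (s i) (hsX i)
    obtain ⟨⟨w2, hw2⟩, hx2, _, _⟩ := hF (t i) (htX i)
    let w := (w1.reverse.append w2).bypass
    have hsub : ∀ x ∈ w.support, x ∈ F (s i) ∪ F (t i) := by
      intro x hx
      have h1 := SimpleGraph.Walk.support_bypass_subset_support _ hx
      rw [SimpleGraph.Walk.mem_support_append_iff, SimpleGraph.Walk.support_reverse,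
        List.mem_reverse] at h1
      rw [Finset.mem_union]
      rcases h1 with h1 | h1
      · exact Or.inl (hw1 x h1)
      · exact Or.inr (hw2 x h1)
    refine ⟨w.support.toFinset, ⟨w, SimpleGraph.Walk.bypass_isPath _, by simp, ?_⟩, ?_⟩
    · intro x hx hxX
      have h1 := hsub x (by simpa using hx)
      rw [Finset.mem_union] at h1
      rcases h1 with h1 | h1
      · exact Or.inl (hx1 x h1 hxX)
      · exact Or.inr (hx2 x h1 hxX)
    · intro x hx
      exact hsub x (by simpa using hx)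
  choose F' hF' hF'sub using hpath
  have h1 := hcon' F' hF'
  have h2 : ∀ i, ∑ v ∈ F' i \ X, l v ≤ D (s i) + D (t i) - l u := by
    intro i
    obtain ⟨_, _, hd1, hu1⟩ := hF (s i) (hsX i)
    obtain ⟨_, _, hd2, hu2⟩ := hF (t i) (htX i)
    have h3 : F' i \ X ⊆ (F (s i) \ X) ∪ (F (t i) \ X) := by
      intro x hx
      rw [Finset.mem_sdiff] at hx
      have := hF'sub i hx.1
      rw [Finset.mem_union] at this
      rw [Finset.mem_union, Finset.mem_sdiff, Finset.mem_sdiff]
      rcases this with h | h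
      · exact Or.inl ⟨h, hx.2⟩
      · exact Or.inr ⟨h, hx.2⟩
    have h4 := Finset.sum_le_sum_of_subset_of_nonneg h3 (f := l) (fun v _ _ => hl v)
    have h5 := Finset.sum_union_inter (s₁ := F (s i) \ X) (s₂ := F (t i) \ X) (f := l)
    have h6 : l u ≤ ∑ v ∈ (F (s i) \ X) ∩ (F (t i) \ X), l v := by
      apply Finset.single_le_sum (f := l) (fun v _ => hl v)
      rw [Finset.mem_inter, Finset.mem_sdiff, Finset.mem_sdiff]
      exact ⟨⟨hu1, huX⟩, ⟨hu2, huX⟩⟩
    rw [hd1, hd2] at h5
    linarith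
  have h3 : ∑ i, ∑ v ∈ F' i \ X, l v ≤ ∑ x ∈ X, D x - k * l u := by
    calc ∑ i, ∑ v ∈ F' i \ X, l v ≤ ∑ i, (D (s i) + D (t i) - l u) :=
          Finset.sum_le_sum (fun i _ => h2 i)
      _ = ∑ x ∈ X, D x - k * l u := by
          rw [Finset.sum_sub_distrib, Finset.sum_add_distrib, ← hXdef,
            Finset.sum_image (fun a _ b _ hab => hinj hab), Fintype.sum_sum_type]
          simp
  have h4 : ∑ x ∈ X, D x ≤ 2 * k * r := by
    calc ∑ x ∈ X, D x ≤ ∑ x ∈ X, r := Finset.sum_le_sum (fun x hx => (hD x hx).2)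
      _ = 2 * k * r := by rw [Finset.sum_const, hXcard, nsmul_eq_mul]; push_cast; ring
  have h5 : ∑ x ∈ X, (r - D x) = 2 * k * r - ∑ x ∈ X, D x := by
    rw [Finset.sum_sub_distrib, Finset.sum_const, hXcard, nsmul_eq_mul]
    push_cast
    ring
  have h6 : ((univ \ X).card : ℝ) * l u ≤ ∑ v ∈ univ \ X, l v := by
    rw [← nsmul_eq_mul]
    exact Finset.card_nsmul_le_sum _ _ _ (fun v hv => humin v hv)
  have h7 : ((univ \ X).card : ℝ) = (Fintype.card V : ℝ) - 2 * k := by
    rw [hYcard, Nat.cast_sub (by omega)]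
    push_cast
    ring
  rw [h7] at h6
  rw [h5] at hmet
  push_cast at hmet
  have hnR : (k : ℝ) * (2 * k + c) + 2 * k * c ≤ c * (Fintype.card V : ℝ) + 2 * k := by
    exact_mod_cast hn
  have hcR : (1 : ℝ) ≤ c := by exact_mod_cast hc
  have hkR : (1 : ℝ) ≤ k := by exact_mod_cast hk
  have hlu := hl u
  -- the two inequalities
  have i1 : (c : ℝ) * r + δ ≤ (k + c - 1) * l u := by nlinarith
  have i2 : ((Fintype.card V : ℝ) - 2 * k) * l u + δ ≤ 2 * k * r - k * l u := by linarith
  have i3 : (c : ℝ) * (((Fintype.card V : ℝ) - 2 * k) * l u + δ) ≤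
      c * (2 * k * r - k * l u) := mul_le_mul_of_nonneg_left i2 (by linarith)
  have i4 : (2 * k : ℝ) * (c * r + δ) ≤ 2 * k * ((k + c - 1) * l u) :=
    mul_le_mul_of_nonneg_left i1 (by linarith)
  have i5 : ((k : ℝ) * (2 * k + c) + 2 * k * c) * l u ≤
      (c * (Fintype.card V : ℝ) + 2 * k) * l u := mul_le_mul_of_nonneg_right hnR hlu
  have i6 : 0 < (c : ℝ) * δ := by positivity
  have i7 : 0 < (k : ℝ) * δ := by positivity
  nlinarith

end Run7.h534.Link
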