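import Pool.Agent.Run7.h534.Link.Dist

set_option autoImplicit false

/-!
From distances to fractional linkages, by separation of convex sets.
-/

namespace Run7.h534.Link

open Finset

/-- the set `F` is the vertex set of an `s i`-`t i` path avoiding the other terminals -/
def PS {V : Type} (G : SimpleGraph V) {k : ℕ} (s t : Fin k → V) (X : Finset V) (i : Fin k)
    (F : Finset V) : Prop :=
  ∃ p : G.Walk (s i) (t i), p.IsPath ∧ (∀ v, v ∈ F ↔ v ∈ p.support) ∧
    ∀ x ∈ F, x ∈ X → x = s i ∨ x = t i

open Classical in
theorem frac_of_metric {V : Type} [Fintype V] (G : SimpleGraph V) {k : ℕ}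
    (s t : Fin k → V) (hinj : Function.Injective (Sum.elim s t)) (X : Finset V)
    (hX : X = univ.image (Sum.elim s t))
    (h : ∀ l : V → ℝ, (∀ v, 0 ≤ l v) → ∀ δ : ℝ, 0 < δ → ∃ F : Fin k → Finset V,
      (∀ i, PS G s t X i (F i)) ∧
        ∑ i, ∑ v ∈ F i \ X, l v < ∑ v ∈ univ \ X, l v + δ) : FracLinked G s t := by
  classical
  let K : Set (Fin k → Finset V → ℝ) := {w | (∀ i F, 0 ≤ w i F) ∧
    (∀ i F, ¬ PS G s t X i F → w i F = 0) ∧ ∀ i, ∑ F, w i F = 1}
  let L : (Fin k → Finset V → ℝ) → (V → ℝ) := fun w v =>
    ∑ i, ∑ F ∈ univ.filter (fun F : Finset V => v ∈ F), w i F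
  have hLcont : Continuous L := by
    apply continuous_pi
    intro v
    apply continuous_finsetSum
    intro i _
    apply continuous_finsetSum
    intro F _
    exact (continuous_apply F).comp (continuous_apply i)
  have hKclosed : IsClosed K := by
    have e : K = (⋂ i, ⋂ F, {w : Fin k → Finset V → ℝ | 0 ≤ w i F}) ∩
        ((⋂ i, ⋂ F, ⋂ (_ : ¬ PS G s t X i F), {w : Fin k → Finset V → ℝ | w i F = 0}) ∩
        (⋂ i, {w : Fin k → Finset V → ℝ | ∑ F, w i F = 1})) := by
      ext w
      simp [K]
    have hc : ∀ i F, Continuous (fun w : Fin k → Finset V → ℝ => w i F) := fun i F =>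
      (continuous_apply F).comp (continuous_apply i)
    rw [e]
    refine IsClosed.inter ?_ (IsClosed.inter ?_ ?_)
    · exact isClosed_iInter (fun i => isClosed_iInter (fun F =>
        isClosed_le continuous_const (hc i F)))
    · exact isClosed_iInter (fun i => isClosed_iInter (fun F => isClosed_iInter (fun _ =>
        isClosed_eq (hc i F) continuous_const)))
    · exact isClosed_iInter (fun i => isClosed_eq
        (continuous_finsetSum _ (fun F _ => hc i F)) continuous_const)
  have hKsub : K ⊆ Set.Icc (0 : Fin k → Finset V → ℝ) 1 := by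
    rintro w ⟨h1, _, h3⟩
    refine ⟨fun i F => h1 i F, fun i F => ?_⟩
    have := Finset.single_le_sum (f := w i) (fun F _ => h1 i F) (mem_univ F)
    rw [h3 i] at this
    exact this
  have hKcomp : IsCompact K := IsCompact.of_isClosed_subset isCompact_Icc hKclosed hKsub
  have hKconv : Convex ℝ K := by
    intro w hw w' hw' a b ha hb hab
    obtain ⟨h1, h2, h3⟩ := hw
    obtain ⟨h1', h2', h3'⟩ := hw'
    refine ⟨fun i F => ?_, fun i F hF => ?_, fun i => ?_⟩
    · simp only [Pi.add_apply, Pi.smul_apply, smul_eq_mul]
      exact add_nonneg (mul_nonneg ha (h1 i F)) (mul_nonneg hb (h1' i F))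
    · simp only [Pi.add_apply, Pi.smul_apply, smul_eq_mul]
      rw [h2 i F hF, h2' i F hF]
      simp
    · simp only [Pi.add_apply, Pi.smul_apply, smul_eq_mul]
      rw [Finset.sum_add_distrib, ← Finset.mul_sum, ← Finset.mul_sum, h3 i, h3' i]
      linarith
  have hLcomp : IsCompact (L '' K) := hKcomp.image hLcont
  have hLconv : Convex ℝ (L '' K) := by
    rintro _ ⟨w, hw, rfl⟩ _ ⟨w', hw', rfl⟩ a b ha hb hab
    refine ⟨a • w + b • w', hKconv hw hw' ha hb hab, ?_⟩
    funext v
    simp only [L, Pi.add_apply, Pi.smul_apply, smul_eq_mul, Finset.sum_add_distrib,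
      ← Finset.mul_sum]
  by_cases hdis : Disjoint (L '' K) (Set.Iic (1 : V → ℝ))
  · exfalso
    obtain ⟨f, u0, v0, hf1, huv, hf2⟩ := geometric_hahn_banach_compact_closed hLconv hLcomp
      (convex_Iic _) isClosed_Iic hdis
    let l : V → ℝ := fun v => - f (Pi.single v 1)
    have hf : ∀ z : V → ℝ, f z = - ∑ v, l v * z v := by
      intro z
      have hz : z = ∑ v, z v • (Pi.single v (1 : ℝ) : V → ℝ) := by
        funext x
        simp [Finset.sum_apply, Pi.single_apply]
      conv_lhs => rw [hz]
      rw [map_sum, ← Finset.sum_neg_distrib]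
      apply Finset.sum_congr rfl
      intro v _
      rw [map_smul, smul_eq_mul]
      simp only [l]
      ring
    have hl : ∀ v, 0 ≤ l v := by
      intro v
      by_contra hneg
      push Not at hneg
      -- push far down in direction `v`
      have hb := hf2 ((1 : V → ℝ) - ((|f 1| + |v0| + 1) / (- l v)) • Pi.single v (1 : ℝ)) ?_
      · rw [map_sub, map_smul, smul_eq_mul] at hb
        have h1 : f (Pi.single v (1 : ℝ)) = - l v := by simp [l]
        rw [h1] at hb
        have h2 : (|f 1| + |v0| + 1) / (- l v) * (- l v) = |f 1| + |v0| + 1 := by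
          apply div_mul_cancel₀
          linarith
        rw [h2] at hb
        have h3 := le_abs_self (f 1)
        have h4 := neg_abs_le v0
        linarith
      · rw [Set.mem_Iic]
        intro x
        simp only [Pi.sub_apply, Pi.one_apply, Pi.smul_apply, smul_eq_mul]
        have h5 : 0 ≤ (|f 1| + |v0| + 1) / (- l v) := by
          apply div_nonneg
          · positivity
          · linarith
        have h6 : (0 : ℝ) ≤ (Pi.single v (1 : ℝ) : V → ℝ) x := by
          rw [Pi.single_apply]
          split_ifs <;> norm_num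
        nlinarith
    obtain ⟨F, hF, hFlt⟩ := h l hl (v0 - u0) (by linarith)
    -- the corresponding point of `K`
    let w : Fin k → Finset V → ℝ := fun i F' => if F' = F i then 1 else 0
    have hwK : w ∈ K := by
      refine ⟨fun i F' => ?_, fun i F' hF' => ?_, fun i => ?_⟩
      · simp only [w]
        split_ifs <;> norm_num
      · simp only [w]
        rw [if_neg]
        rintro rfl
        exact hF' (hF i)
      · simp [w]
    have h1 := hf1 (L w) ⟨w, hwK, rfl⟩
    have h2 := hf2 1 (Set.mem_Iic.mpr le_rfl)
    rw [hf] at h1 h2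
    have hLw : ∀ v, L w v = ∑ i, (if v ∈ F i then (1 : ℝ) else 0) := by
      intro v
      simp only [L, w]
      apply Finset.sum_congr rfl
      intro i _
      rw [Finset.sum_ite_eq']
      simp
    have e1 : ∑ v, l v * L w v = ∑ i, ∑ v ∈ F i, l v := by
      have : ∀ v, l v * L w v = ∑ i, (if v ∈ F i then l v else 0) := by
        intro v
        rw [hLw, Finset.mul_sum]
        apply Finset.sum_congr rfl
        intro i _
        split_ifs <;> simp
      rw [Finset.sum_congr rfl (fun v _ => this v), Finset.sum_comm]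
      apply Finset.sum_congr rfl
      intro i _
      rw [← Finset.sum_filter]
      congr 1
      ext v
      simp
    have hst : ∀ i, s i ≠ t i := by
      intro i hi
      have := @hinj (Sum.inl i) (Sum.inr i) (by simpa using hi)
      exact absurd this (by simp)
    have e2 : ∀ i, ∑ v ∈ F i, l v = ∑ v ∈ F i \ X, l v + (l (s i) + l (t i)) := by
      intro i
      obtain ⟨p, hp, hps, hpx⟩ := hF i
      have : F i ∩ X = {s i, t i} := by
        ext v
        simp only [mem_inter, mem_insert, mem_singleton]
        constructor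
        · rintro ⟨h1, h2⟩
          exact hpx v h1 h2
        · rintro (rfl | rfl)
          · refine ⟨(hps _).mpr (by simp), ?_⟩
            rw [hX]
            exact Finset.mem_image.mpr ⟨Sum.inl i, mem_univ _, rfl⟩
          · refine ⟨(hps _).mpr (by simp), ?_⟩
            rw [hX]
            exact Finset.mem_image.mpr ⟨Sum.inr i, mem_univ _, rfl⟩
      rw [← Finset.sum_inter_add_sum_sdiff (F i) X l, this, Finset.sum_pair (hst i), add_comm]
    have e3 : ∑ v, l v = ∑ v ∈ univ \ X, l v + ∑ i, (l (s i) + l (t i)) := by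
      rw [← Finset.sum_inter_add_sum_sdiff univ X l, Finset.univ_inter, add_comm]
      congr 1
      rw [hX, Finset.sum_image (fun a _ b _ hab => hinj hab), Fintype.sum_sum_type,
        Finset.sum_add_distrib]
      rfl
    rw [e1, Finset.sum_congr rfl (fun i _ => e2 i), Finset.sum_add_distrib] at h1
    have e4 : ∑ v, l v * (1 : V → ℝ) v = ∑ v, l v := by simp
    rw [e4, e3] at h2
    linarith
  · rw [Set.not_disjoint_iff] at hdis
    obtain ⟨_, ⟨w, hw, rfl⟩, hle⟩ := hdis
    obtain ⟨h1, h2, h3⟩ := hw
    refine ⟨w, h1, ?_, h3, ?_⟩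
    · intro i F hne
      have : PS G s t X i F := by
        by_contra hcon
        exact hne (h2 i F hcon)
      obtain ⟨p, hp, hps, _⟩ := this
      exact ⟨p, hp, hps⟩
    · intro v
      have := hle v
      exact this

end Run7.h534.Link
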