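import Pool.Agent.Run7.h534.Link.FDefs

set_option autoImplicit false

/-!
The distance lemma.
-/

namespace Run7.h534.Link

open Finset MeasureTheory

/-- an integral inequality for families of intervals -/
theorem coarea {ι κ : Type} (A : Finset ι) (B : Finset κ) (a b : ι → ℝ) (d : κ → ℝ)
    (e r M : ℝ) (her : e ≤ r) (hab : ∀ i ∈ A, a i ≤ b i) (hd : ∀ j ∈ B, e ≤ d j ∧ d j ≤ r)
    (h : ∀ x, e < x → x ≤ r → M ≤
      (∑ i ∈ A, (Set.Ioc (a i) (b i)).indicator (fun _ => (1 : ℝ)) x) +
      ∑ j ∈ B, (Set.Ioi (d j)).indicator (fun _ => (1 : ℝ)) x) :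
    M * (r - e) ≤ (∑ i ∈ A, (b i - a i)) + ∑ j ∈ B, (r - d j) := by
  have hint1 : ∀ i, IntegrableOn ((Set.Ioc (a i) (b i)).indicator (fun _ => (1 : ℝ)))
      (Set.Ioc e r) volume := by
    intro i
    apply IntegrableOn.indicator _ measurableSet_Ioc
    exact integrableOn_const (by simp)
  have hint2 : ∀ j, IntegrableOn ((Set.Ioi (d j)).indicator (fun _ => (1 : ℝ)))
      (Set.Ioc e r) volume := by
    intro i
    apply IntegrableOn.indicator _ measurableSet_Ioi
    exact integrableOn_const (by simp)
  have h1 : ∫ x in Set.Ioc e r, M ≤ ∫ x in Set.Ioc e r,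
      ((∑ i ∈ A, (Set.Ioc (a i) (b i)).indicator (fun _ => (1 : ℝ)) x) +
      ∑ j ∈ B, (Set.Ioi (d j)).indicator (fun _ => (1 : ℝ)) x) := by
    apply setIntegral_mono_on
    · exact integrableOn_const (by simp)
    · apply Integrable.add
      · exact integrable_finsetSum _ (fun i _ => hint1 i)
      · exact integrable_finsetSum _ (fun i _ => hint2 i)
    · exact measurableSet_Ioc
    · intro x hx
      exact h x hx.1 hx.2
  rw [integral_add (integrable_finsetSum _ (fun i _ => hint1 i))
    (integrable_finsetSum _ (fun i _ => hint2 i)),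
    integral_finsetSum _ (fun i _ => hint1 i), integral_finsetSum _ (fun i _ => hint2 i)] at h1
  have h2 : ∫ x in Set.Ioc e r, M = M * (r - e) := by
    rw [setIntegral_const, Real.volume_real_Ioc_of_le her, smul_eq_mul]
    ring
  rw [h2] at h1
  refine h1.trans (add_le_add ?_ ?_)
  · apply Finset.sum_le_sum
    intro i hi
    rw [setIntegral_indicator measurableSet_Ioc, setIntegral_const, smul_eq_mul, mul_one]
    calc volume.real (Set.Ioc e r ∩ Set.Ioc (a i) (b i))
        ≤ volume.real (Set.Ioc (a i) (b i)) :=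
          measureReal_mono Set.inter_subset_right (by simp)
      _ = b i - a i := Real.volume_real_Ioc_of_le (hab i hi)
  · apply Finset.sum_le_sum
    intro j hj
    rw [setIntegral_indicator measurableSet_Ioi, setIntegral_const, smul_eq_mul, mul_one]
    calc volume.real (Set.Ioc e r ∩ Set.Ioi (d j))
        ≤ volume.real (Set.Ioc (d j) r) := by
          apply measureReal_mono _ (by simp)
          rintro x ⟨hx1, hx2⟩
          exact ⟨hx2, hx1.2⟩
      _ = r - d j := Real.volume_real_Ioc_of_le (hd j hj).2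

end Run7.h534.Link
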